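import Mathlib

/-!
# CM fields with given Galois groups from homomorphisms of the absolute Galois group
-/

set_option autoImplicit false

namespace Pool.Agent.N90.FD

open NumberField

/-- the algebraic closure of the rational numbers -/
abbrev QQ : Type := AlgebraicClosure ℚ

instance : Algebra.IsAlgebraic ℚ QQ := AlgebraicClosure.isAlgebraic ℚ

instance : IsAlgClosure ℚ QQ := ⟨inferInstance, inferInstance⟩

instance : Normal ℚ QQ := IsAlgClosure.normal ℚ QQ

instance : IsGalois ℚ QQ := ⟨⟩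

/-- an embedding into the complex numbers -/
noncomputable def j0 : QQ →ₐ[ℚ] ℂ := IsAlgClosed.lift

/-- Automorphisms of the algebraic closure for each complex embedding. -/
theorem exists_lift (τ : QQ →ₐ[ℚ] ℂ) : ∃ σ : QQ ≃ₐ[ℚ] QQ, ∀ x, τ x = j0 (σ x) := by
  have h1 : ∀ x : QQ, τ x ∈ (j0 : QQ →ₐ[ℚ] ℂ).range := by
    intro x
    have hx : IsIntegral ℚ x := Algebra.IsIntegral.isIntegral x
    have hroot : Polynomial.aeval (τ x) (minpoly ℚ x) = 0 := by
      rw [Polynomial.aeval_algHom_apply, minpoly.aeval, map_zero]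
    have hsp : ((minpoly ℚ x).map (algebraMap ℚ QQ)).Splits := IsAlgClosed.splits _
    have h2 : τ x ∈ (minpoly ℚ x).rootSet ℂ :=
      Polynomial.mem_rootSet.2 ⟨minpoly.ne_zero hx, hroot⟩
    rw [← hsp.image_rootSet j0] at h2
    obtain ⟨y, _, hy⟩ := h2
    exact ⟨y, hy⟩
  let e : QQ ≃ₐ[ℚ] (j0 : QQ →ₐ[ℚ] ℂ).range := AlgEquiv.ofInjective j0 j0.injective
  let σ0 : QQ →ₐ[ℚ] QQ := (e.symm : _ →ₐ[ℚ] QQ).comp (τ.codRestrict _ h1)
  have hσ0 : ∀ x, j0 (σ0 x) = τ x := by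
    intro x
    have h3 : e (σ0 x) = ⟨τ x, h1 x⟩ := e.apply_symm_apply _
    exact congrArg Subtype.val h3
  refine ⟨AlgEquiv.ofBijective σ0 (AlgHom.normal_bijective ℚ QQ QQ σ0), fun x => ?_⟩
  exact (hσ0 x).symm

/-- Complex conjugation on the algebraic closure. -/
theorem exists_conj : ∃ c : QQ ≃ₐ[ℚ] QQ, ∀ x, j0 (c x) = starRingEnd ℂ (j0 x) := by
  let τ : QQ →ₐ[ℚ] ℂ := ((Complex.conjAe.restrictScalars ℚ : ℂ ≃ₐ[ℚ] ℂ) : ℂ →ₐ[ℚ] ℂ).comp j0
  obtain ⟨c, hc⟩ := exists_lift τ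
  exact ⟨c, fun x => (hc x).symm⟩

open IntermediateField in
/-- **Realization.** -/
theorem exists_field {G : Type} [Group G] (P : (QQ ≃ₐ[ℚ] QQ) →* G) (hP : Function.Surjective P)
    (M : IntermediateField ℚ QQ) [FiniteDimensional ℚ M] (hM : M.fixingSubgroup ≤ P.ker)
    (c : QQ ≃ₐ[ℚ] QQ) (hc : ∀ x, j0 (c x) = starRingEnd ℂ (j0 x))
    (hcent : ∀ g : G, g * P c = P c * g) (hc1 : P c ≠ 1) :
    ∃ (K : Type) (_ : Field K) (_ : NumberField K) (_ : IsCMField K) (_ : IsGalois ℚ K)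
      (e : (K ≃ₐ[ℚ] K) ≃* G), ∀ g : K ≃ₐ[ℚ] K, (∀ x, g x = IsCMField.complexConj K x) →
        e g = P c := by
  have hopen : IsOpen (P.ker : Set (QQ ≃ₐ[ℚ] QQ)) :=
    Subgroup.isOpen_mono hM (IntermediateField.fixingSubgroup_isOpen M)
  let H : ClosedSubgroup (QQ ≃ₐ[ℚ] QQ) := ⟨P.ker, Subgroup.isClosed_of_isOpen _ hopen⟩
  have hHn : H.1.Normal := MonoidHom.normal_ker P
  let K : IntermediateField ℚ QQ := fixedField H.1
  have hfix : K.fixingSubgroup = P.ker := InfiniteGalois.fixingSubgroup_fixedField H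
  have hfd : FiniteDimensional ℚ K := by
    rw [← InfiniteGalois.isOpen_iff_finite]
    have h1 : K.fixingSubgroup.carrier = (P.ker : Set (QQ ≃ₐ[ℚ] QQ)) :=
      congrArg (fun S : Subgroup (QQ ≃ₐ[ℚ] QQ) => (S : Set (QQ ≃ₐ[ℚ] QQ))) hfix
    rw [h1]
    exact hopen
  have hnor : K.fixingSubgroup.Normal := by
    rw [hfix]
    exact MonoidHom.normal_ker P
  have hgal : IsGalois ℚ K := (InfiniteGalois.normal_iff_isGalois K).1 hnor
  have hNF : NumberField K := NumberField.mk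
  -- the restriction
  let R : (QQ ≃ₐ[ℚ] QQ) →* (K ≃ₐ[ℚ] K) := AlgEquiv.restrictNormalHom K
  have hR : Function.Surjective R := AlgEquiv.restrictNormalHom_surjective QQ
  have hker : R.ker = P.ker := by
    rw [← hfix]
    exact IntermediateField.restrictNormalHom_ker K
  have hRx : ∀ (σ : QQ ≃ₐ[ℚ] QQ) (x : K), ((R σ x : K) : QQ) = σ x := fun σ x =>
    AlgEquiv.restrictNormal_commutes σ K x
  -- the isomorphism
  let e1 : (QQ ≃ₐ[ℚ] QQ) ⧸ R.ker ≃* (K ≃ₐ[ℚ] K) := QuotientGroup.quotientKerEquivOfSurjective R hR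
  let e2 : (QQ ≃ₐ[ℚ] QQ) ⧸ P.ker ≃* G := QuotientGroup.quotientKerEquivOfSurjective P hP
  let e3 : (QQ ≃ₐ[ℚ] QQ) ⧸ R.ker ≃* (QQ ≃ₐ[ℚ] QQ) ⧸ P.ker := QuotientGroup.quotientMulEquivOfEq hker
  let e : (K ≃ₐ[ℚ] K) ≃* G := (e1.symm.trans e3).trans e2
  have he : ∀ σ, e (R σ) = P σ := by
    intro σ
    have h1 : e1.symm (R σ) = QuotientGroup.mk σ := by
      rw [MulEquiv.symm_apply_eq]
      rfl
    change e2 (e3 (e1.symm (R σ))) = P σ
    rw [h1]
    rfl
  -- complex conjugation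
  have hconj : ∀ φ : K →+* ℂ, ComplexEmbedding.IsConj φ (R c) := by
    intro φ
    -- extend
    let φ' : K →ₐ[ℚ] ℂ := φ.toRatAlgHom
    let _ : Algebra K ℂ := φ.toAlgebra
    have hst : IsScalarTower ℚ K ℂ := IsScalarTower.of_algebraMap_eq fun x => (φ'.commutes x).symm
    let τ0 : QQ →ₐ[K] ℂ := IsAlgClosed.lift
    let τ : QQ →ₐ[ℚ] ℂ := τ0.restrictScalars ℚ
    have hτ : ∀ x : K, τ x = φ x := fun x => τ0.commutes x
    obtain ⟨σ, hσ⟩ := exists_lift τ
    have h1 : R (c * σ) = R (σ * c) := by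
      apply e.injective
      rw [he, he, map_mul, map_mul, hcent]
    ext x
    change starRingEnd ℂ (φ x) = φ (R c x)
    rw [← hτ x, ← hτ (R c x), hσ, hσ, ← hc]
    congr 1
    have h2 := congrArg (fun g : K ≃ₐ[ℚ] K => ((g x : K) : QQ)) h1
    simp only [hRx] at h2
    have h3 : ((R c x : K) : QQ) = c x := hRx c x
    rw [h3]
    exact h2
  have htc : IsTotallyComplex K := by
    refine ⟨fun w => ?_⟩
    rw [InfinitePlace.isComplex_iff]
    intro hreal
    apply hc1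
    rw [← he]
    have h1 : R c = 1 := by
      ext x
      have h2 := RingHom.congr_fun (hconj w.embedding) x
      have h3 := RingHom.congr_fun hreal x
      have h4 : w.embedding x = w.embedding (R c x) := h3.symm.trans h2
      rw [← w.embedding.injective h4]
      rfl
    rw [h1, map_one]
  have hCM : IsCMField K := IsCMField.of_forall_isConj K hconj
  refine ⟨K, inferInstance, hNF, hCM, hgal, e, fun g hg => ?_⟩
  rw [← he]
  congr 1
  ext x
  rw [hg x]
  obtain ⟨φ⟩ : Nonempty (K →+* ℂ) := inferInstance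
  congr 1
  apply φ.injective
  have h1 := IsCMField.complexEmbedding_complexConj K φ x
  have h2 := RingHom.congr_fun (hconj φ) x
  rw [h1]
  exact h2

end Pool.Agent.N90.FD
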