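import Pool.Agent.N90.FD.Num
import Pool.Agent.N90.FD.Gal
import Pool.Agent.N90.HE.Core

/-!
# A CM field whose Galois group is the product of a Heisenberg group and a cyclic group
-/

set_option autoImplicit false
set_option linter.unusedSectionVars false

namespace Pool.Agent.N90.FD

open NumberField Finset Pool.Agent.N90.HE

/-- The Heisenberg group over the field with two elements (an extraspecial group of order
`2 ^ (2 m + 1)`) times the cyclic group of order `n`. -/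
@[ext] structure HG (m n : ℕ) where
  a : VV m
  b : VV m
  s : ZMod 2
  i : ZMod n

namespace HG

variable {m n : ℕ}

instance : Mul (HG m n) := ⟨fun x y => ⟨x.a + y.a, x.b + y.b, x.s + y.s + x.b ⬝ᵥ y.a, x.i + y.i⟩⟩
instance : One (HG m n) := ⟨⟨0, 0, 0, 0⟩⟩
instance : Inv (HG m n) := ⟨fun x => ⟨-x.a, -x.b, -x.s + x.b ⬝ᵥ x.a, -x.i⟩⟩

@[simp] theorem mul_a (x y : HG m n) : (x * y).a = x.a + y.a := rfl
@[simp] theorem mul_b (x y : HG m n) : (x * y).b = x.b + y.b := rfl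
@[simp] theorem mul_s (x y : HG m n) : (x * y).s = x.s + y.s + x.b ⬝ᵥ y.a := rfl
@[simp] theorem mul_i (x y : HG m n) : (x * y).i = x.i + y.i := rfl
@[simp] theorem one_a : (1 : HG m n).a = 0 := rfl
@[simp] theorem one_b : (1 : HG m n).b = 0 := rfl
@[simp] theorem one_s : (1 : HG m n).s = 0 := rfl
@[simp] theorem one_i : (1 : HG m n).i = 0 := rfl
@[simp] theorem inv_a (x : HG m n) : (x⁻¹).a = -x.a := rfl
@[simp] theorem inv_b (x : HG m n) : (x⁻¹).b = -x.b := rfl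
@[simp] theorem inv_s (x : HG m n) : (x⁻¹).s = -x.s + x.b ⬝ᵥ x.a := rfl
@[simp] theorem inv_i (x : HG m n) : (x⁻¹).i = -x.i := rfl

instance : Group (HG m n) := Group.ofLeftAxioms
  (fun x y z => by
    ext1 <;> simp only [mul_a, mul_b, mul_s, mul_i, add_assoc, add_dotProduct, dotProduct_add]
    ring)
  (fun x => by ext1 <;> simp)
  (fun x => by
    have h : ∀ y z : ZMod 2, -y + z + y + -z = 0 := by decide
    ext1
    · simp
    · simp
    · rw [mul_s, inv_s, inv_b, neg_dotProduct]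
      exact h _ _
    · simp)

/-- the central involution -/
def c (m n : ℕ) : HG m n := ⟨0, 0, 1, 0⟩

theorem c_central (g : HG m n) : g * c m n = c m n * g := by
  ext1 <;> simp [c, add_comm]

theorem c_ne_one : c m n ≠ 1 := by
  intro h
  have := congrArg HG.s h
  simp [c] at this

/-- the equivalence with the product -/
def equiv (m n : ℕ) : HG m n ≃ VV m × VV m × ZMod 2 × ZMod n where
  toFun x := (x.a, x.b, x.s, x.i)
  invFun y := ⟨y.1, y.2.1, y.2.2.1, y.2.2.2⟩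
  left_inv _ := rfl
  right_inv _ := rfl

theorem pow_i (x : HG m n) (k : ℕ) : (x ^ k).i = k * x.i := by
  induction k with
  | zero => simp
  | succ k ih =>
    rw [pow_succ, mul_i, ih]
    push_cast
    ring

theorem pow_a (x : HG m n) (k : ℕ) : (x ^ k).a = (k : ZMod 2) • x.a := by
  induction k with
  | zero => simp
  | succ k ih =>
    rw [pow_succ, mul_a, ih]
    push_cast
    rw [add_smul, one_smul]

theorem pow_b (x : HG m n) (k : ℕ) : (x ^ k).b = (k : ZMod 2) • x.b := by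
  induction k with
  | zero => simp
  | succ k ih =>
    rw [pow_succ, mul_b, ih]
    push_cast
    rw [add_smul, one_smul]

/-- The fourth powers belong to the cyclic group. -/
theorem pow_four (x : HG m n) : (x ^ 4).a = 0 ∧ (x ^ 4).b = 0 ∧ (x ^ 4).s = 0 := by
  have h2 : (2 : ZMod 2) = 0 := rfl
  have h4 : ((4 : ℕ) : ZMod 2) = 0 := rfl
  refine ⟨?_, ?_, ?_⟩
  · rw [pow_a, h4, zero_smul]
  · rw [pow_b, h4, zero_smul]
  · have e : x ^ 4 = (x * x) * (x * x) := by rw [← sq, ← sq, ← pow_mul]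
    rw [e]
    simp only [mul_s, mul_a, mul_b]
    have h5 : x.a + x.a = 0 := add_self' _
    rw [h5, dotProduct_zero, add_zero, ← two_mul, h2, zero_mul]

end HG

/-- the sign with values in a ring -/
def eps {R : Type*} [Ring R] (x : ZMod 2) : R := if x = 0 then 1 else -1

theorem eps_add {R : Type*} [Ring R] (x y : ZMod 2) : (eps (x + y) : R) = eps x * eps y := by
  have h : ∀ x y : ZMod 2, (x + y = 0) ↔ (x = 0 ↔ y = 0) := by decide
  unfold eps
  by_cases hx : x = 0 <;> by_cases hy : y = 0 <;> simp [hx, hy, h]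

theorem eps_inj {x y : ZMod 2} (h : (eps x : QQ) = eps y) : x = y := by
  have h1 : ∀ x y : ZMod 2, x ≠ y → (x = 0 ∧ y ≠ 0) ∨ (x ≠ 0 ∧ y = 0) := by decide
  by_contra hne
  unfold eps at h
  rcases h1 x y hne with ⟨h2, h3⟩ | ⟨h2, h3⟩
  · rw [if_pos h2, if_neg h3] at h
    norm_num at h
  · rw [if_neg h2, if_pos h3] at h
    norm_num at h

theorem eps_zero {R : Type*} [Ring R] : (eps 0 : R) = 1 := if_pos rfl

theorem eps_sq {R : Type*} [Ring R] (x : ZMod 2) : (eps x : R) * eps x = 1 := by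
  unfold eps
  split_ifs <;> simp

theorem eps_sum {R : Type*} [CommRing R] {ι : Type*} (S : Finset ι) (f : ι → ZMod 2) :
    (eps (∑ i ∈ S, f i) : R) = ∏ i ∈ S, eps (f i) := by
  classical
  induction S using Finset.induction_on with
  | empty => rw [Finset.sum_empty, Finset.prod_empty, eps_zero]
  | insert a S ha ih => rw [Finset.sum_insert ha, Finset.prod_insert ha, eps_add, ih]

open Classical in
/-- the sign by which an automorphism multiplies an element -/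
noncomputable def sgn (x y : QQ) : ZMod 2 := if y = x then 0 else 1

theorem sgn_spec {x y : QQ} (h : y = x ∨ y = -x) : y = eps (sgn x y) * x := by
  unfold sgn eps
  by_cases h1 : y = x
  · rw [if_pos h1, if_pos rfl, one_mul, h1]
  · rw [if_neg h1, if_neg one_ne_zero, neg_one_mul]
    exact h.resolve_left h1

theorem sq_eq {x y : QQ} (h : y ^ 2 = x ^ 2) : y = x ∨ y = -x := sq_eq_sq_iff_eq_or_eq_neg.1 h

/-- the data -/
structure Dat (m : ℕ) where
  d : Fin m → ℕ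
  N : Fin m → ℕ
  x : Fin m → ℕ
  hd : ∀ i, 0 < d i
  hN : ∀ i, 0 < N i
  hx : ∀ i, x i ^ 2 = d i + N i
  ind : ∀ S T : Finset (Fin m), (S.Nonempty ∨ T.Nonempty) →
    ¬ IsSquare ((∏ i ∈ S, d i) * ∏ i ∈ T, N i)
  r : Fin m → QQ
  hr : ∀ i, r i ^ 2 = d i
  t : Fin m → QQ
  ht : ∀ i, t i ^ 2 = N i
  θ : QQ
  hθ : θ ^ 2 = -∏ i, (x i + r i)

theorem exists_dat (m : ℕ) : Nonempty (Dat m) := by
  obtain ⟨d, N, x, hd, hN, hx, hns⟩ := exists_pairs m
  have h1 : ∀ z : QQ, ∃ y : QQ, y ^ 2 = z := fun z => by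
    obtain ⟨y, hy⟩ := IsAlgClosed.exists_pow_nat_eq z (n := 2) (by norm_num)
    exact ⟨y, hy⟩
  choose sq hsq using h1
  exact ⟨⟨d, N, x, hd, hN, hx, hns, fun i => sq (d i), fun i => hsq _, fun i => sq (N i),
    fun i => hsq _, sq _, hsq _⟩⟩

namespace Dat

variable {m : ℕ} (D : Dat m)

/-- the element `α` -/
noncomputable def al (i : Fin m) : QQ := D.x i + D.r i

theorem al_mul (i : Fin m) : D.al i * (D.x i - D.r i) = D.N i := by
  have h1 : ((D.x i : ℕ) : QQ) ^ 2 = D.d i + D.N i := by exact_mod_cast D.hx i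
  have h2 := D.hr i
  unfold al
  linear_combination h1 - h2

theorem N_ne (i : Fin m) : (D.N i : QQ) ≠ 0 := Nat.cast_ne_zero.2 (D.hN i).ne'

theorem al_ne (i : Fin m) : D.al i ≠ 0 := by
  intro h
  have := D.al_mul i
  rw [h, zero_mul] at this
  exact D.N_ne i this.symm

theorem t_ne (i : Fin m) : D.t i ≠ 0 := by
  intro h
  have := D.ht i
  rw [h] at this
  apply D.N_ne i
  rw [← this]
  norm_num

theorem r_ne (i : Fin m) : D.r i ≠ 0 := by
  intro h
  have := D.hr i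
  rw [h] at this
  have h2 : (D.d i : QQ) ≠ 0 := Nat.cast_ne_zero.2 (D.hd i).ne'
  apply h2
  rw [← this]
  norm_num

theorem θ_ne : D.θ ≠ 0 := by
  intro h
  have h1 := D.hθ
  rw [h] at h1
  have h2 : ∏ i, D.al i ≠ 0 := Finset.prod_ne_zero_iff.2 fun i _ => D.al_ne i
  apply h2
  have h3 : ∏ i, D.al i = ∏ i, ((D.x i : QQ) + D.r i) := rfl
  rw [h3]
  have h4 : (0 : QQ) ^ 2 = 0 := by norm_num
  rw [h4] at h1
  exact neg_eq_zero.1 h1.symm

/-- the component `a` -/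
noncomputable def pa (σ : QQ ≃ₐ[ℚ] QQ) : VV m := fun i => sgn (D.r i) (σ (D.r i))

/-- the component `b` -/
noncomputable def pb (σ : QQ ≃ₐ[ℚ] QQ) : VV m := fun i => sgn (D.t i) (σ (D.t i))

theorem pa_spec (σ : QQ ≃ₐ[ℚ] QQ) (i : Fin m) : σ (D.r i) = eps (D.pa σ i) * D.r i := by
  refine sgn_spec (sq_eq ?_)
  rw [← map_pow, D.hr, map_natCast]

theorem pb_spec (σ : QQ ≃ₐ[ℚ] QQ) (i : Fin m) : σ (D.t i) = eps (D.pb σ i) * D.t i := by
  refine sgn_spec (sq_eq ?_)
  rw [← map_pow, D.ht, map_natCast]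

theorem map_eps (σ : QQ ≃ₐ[ℚ] QQ) (x : ZMod 2) : σ (eps x) = eps x := by
  unfold eps
  split_ifs <;> simp

theorem pa_mul (σ τ : QQ ≃ₐ[ℚ] QQ) : D.pa (σ * τ) = D.pa σ + D.pa τ := by
  funext i
  apply eps_inj
  apply mul_right_cancel₀ (D.r_ne i)
  rw [← D.pa_spec, AlgEquiv.mul_apply, D.pa_spec τ, map_mul, map_eps, D.pa_spec σ, Pi.add_apply,
    eps_add]
  ring

theorem pb_mul (σ τ : QQ ≃ₐ[ℚ] QQ) : D.pb (σ * τ) = D.pb σ + D.pb τ := by
  funext i
  apply eps_inj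
  apply mul_right_cancel₀ (D.t_ne i)
  rw [← D.pb_spec, AlgEquiv.mul_apply, D.pb_spec τ, map_mul, map_eps, D.pb_spec σ, Pi.add_apply,
    eps_add]
  ring

/-- the quotient of two square roots -/
noncomputable def fq (i : Fin m) (u : ZMod 2) : QQ := if u = 0 then 1 else D.t i / D.al i

theorem fq_ne (i : Fin m) (u : ZMod 2) : D.fq i u ≠ 0 := by
  unfold fq
  split_ifs
  · exact one_ne_zero
  · exact div_ne_zero (D.t_ne i) (D.al_ne i)

theorem al_spec (σ : QQ ≃ₐ[ℚ] QQ) (i : Fin m) : σ (D.al i) = D.al i * D.fq i (D.pa σ i) ^ 2 := by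
  have h1 : σ (D.al i) = D.x i + eps (D.pa σ i) * D.r i := by
    rw [al, map_add, map_natCast, D.pa_spec]
  rw [h1]
  unfold fq eps
  split_ifs
  · rw [one_pow, mul_one, one_mul]
    rfl
  · have h2 := D.al_mul i
    have h3 := D.ht i
    have h4 := D.al_ne i
    field_simp
    rw [h3, ← h2]
    ring

theorem θ_sq (σ : QQ ≃ₐ[ℚ] QQ) : σ D.θ = D.θ * ∏ i, D.fq i (D.pa σ i) ∨
    σ D.θ = -(D.θ * ∏ i, D.fq i (D.pa σ i)) := by
  refine sq_eq ?_
  have h1 : ∏ i, ((D.x i : QQ) + D.r i) = ∏ i, D.al i := rfl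
  rw [← map_pow, mul_pow, D.hθ, map_neg, h1, map_prod]
  rw [Finset.prod_congr rfl (fun i _ => D.al_spec σ i), Finset.prod_mul_distrib,
    Finset.prod_pow]
  ring

/-- the component `s` -/
noncomputable def ps (σ : QQ ≃ₐ[ℚ] QQ) : ZMod 2 := sgn (D.θ * ∏ i, D.fq i (D.pa σ i)) (σ D.θ)

theorem ps_spec (σ : QQ ≃ₐ[ℚ] QQ) :
    σ D.θ = eps (D.ps σ) * (D.θ * ∏ i, D.fq i (D.pa σ i)) := sgn_spec (D.θ_sq σ)

theorem fq_mul (σ : QQ ≃ₐ[ℚ] QQ) (i : Fin m) (v : ZMod 2) :
    D.fq i (D.pa σ i) * σ (D.fq i v) = eps (D.pb σ i * v) * D.fq i (D.pa σ i + v) := by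
  have h01 : ∀ x : ZMod 2, x = 0 ∨ x = 1 := by decide
  have h11 : (1 : ZMod 2) + 1 = 0 := rfl
  have h10 : (1 : ZMod 2) ≠ 0 := one_ne_zero
  have hal := D.al_ne i
  rcases h01 v with rfl | rfl
  · have h1 : D.fq i 0 = 1 := if_pos rfl
    rw [h1, map_one, mul_one, mul_zero, add_zero, eps_zero, one_mul]
  · have h1 : D.fq i 1 = D.t i / D.al i := if_neg h10
    rw [h1, map_div₀, D.pb_spec, D.al_spec, mul_one]
    rcases h01 (D.pa σ i) with h2 | h2
    · rw [h2, zero_add, h1]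
      have h3 : D.fq i 0 = 1 := if_pos rfl
      rw [h3, one_pow, mul_one, one_mul, mul_div_assoc]
    · rw [h2, h11, h1]
      have h3 : D.fq i 0 = 1 := if_pos rfl
      rw [h3]
      have h4 := D.t_ne i
      field_simp

theorem ps_mul (σ τ : QQ ≃ₐ[ℚ] QQ) :
    D.ps (σ * τ) = D.ps σ + D.ps τ + D.pb σ ⬝ᵥ D.pa τ := by
  apply eps_inj
  have hne : D.θ * ∏ i, D.fq i (D.pa (σ * τ) i) ≠ 0 :=
    mul_ne_zero D.θ_ne (Finset.prod_ne_zero_iff.2 fun i _ => D.fq_ne i _)
  apply mul_right_cancel₀ hne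
  rw [← D.ps_spec, AlgEquiv.mul_apply, D.ps_spec τ, map_mul, map_eps, map_mul, D.ps_spec σ,
    map_prod, eps_add, eps_add]
  have h1 : (∏ i, D.fq i (D.pa σ i)) * ∏ i, σ (D.fq i (D.pa τ i)) =
      eps (D.pb σ ⬝ᵥ D.pa τ) * ∏ i, D.fq i (D.pa (σ * τ) i) := by
    rw [← Finset.prod_mul_distrib, dotProduct, eps_sum, ← Finset.prod_mul_distrib]
    refine Finset.prod_congr rfl fun i _ => ?_
    rw [D.fq_mul, D.pa_mul, Pi.add_apply]
  linear_combination (eps (D.ps τ) * eps (D.ps σ) * D.θ) * h1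

end Dat

end Pool.Agent.N90.FD
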