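import Mathlib

/-!
# Numbers `x ^ 2 = d + N` with `d`, `N` independent modulo squares
-/

set_option autoImplicit false

namespace Pool.Agent.N90.FD

open Finset

/-- A number that is divisible exactly once by a prime is not a square. -/
theorem not_square {q P : ℕ} (hq : q.Prime) (h1 : q ∣ P) (h2 : ¬ q ^ 2 ∣ P) : ¬ IsSquare P := by
  rintro ⟨y, rfl⟩
  rcases (Nat.Prime.dvd_mul hq).1 h1 with h | h <;>
  · apply h2
    rw [sq]
    exact mul_dvd_mul h h

theorem exact_mul {q a b : ℕ} (hq : q.Prime) (ha : ¬ q ∣ a) (hb : q ∣ b) (hb2 : ¬ q ^ 2 ∣ b) :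
    ¬ IsSquare (a * b) := by
  refine not_square hq (hb.mul_left a) fun h => hb2 ?_
  exact (Nat.Coprime.pow_left 2 ((Nat.Prime.coprime_iff_not_dvd hq).2 ha)).dvd_of_dvd_mul_left h

/-- One more pair. -/
theorem exists_pair (P : ℕ) (hP : 0 < P) : ∃ d N x q r : ℕ, q.Prime ∧ r.Prime ∧ P < q ∧ P < r ∧
    0 < d ∧ 0 < N ∧ x ^ 2 = d + N ∧ q ∣ N ∧ ¬ q ^ 2 ∣ N ∧ ¬ q ∣ d ∧ r ∣ d ∧ ¬ r ^ 2 ∣ d := by
  obtain ⟨q, hq1, hq⟩ := Nat.exists_infinite_primes (P + 2)
  obtain ⟨r, hr1, hr⟩ := Nat.exists_infinite_primes (q + 1)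
  have hqr : (q ^ 2).Coprime (r ^ 2) :=
    Nat.Coprime.pow 2 2 ((Nat.coprime_primes hq hr).2 (by omega))
  obtain ⟨d, hd1, hd2⟩ := Nat.chineseRemainder hqr (1 + q) r
  have hqd : ¬ q ∣ d := by
    intro h
    have h1 : d ≡ 1 + q [MOD q] := hd1.of_dvd (dvd_pow_self q two_ne_zero)
    have h2 : q ∣ 1 + q := (h1.dvd_iff dvd_rfl).1 h
    have h3 : q ∣ 1 := (Nat.dvd_add_left dvd_rfl).1 h2
    exact hq.one_lt.ne' (Nat.dvd_one.1 h3)
  have hrd : r ∣ d := by
    have h1 : d ≡ r [MOD r] := hd2.of_dvd (dvd_pow_self r two_ne_zero)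
    exact (h1.dvd_iff dvd_rfl).2 dvd_rfl
  have hrd2 : ¬ r ^ 2 ∣ d := by
    intro h
    have h2 : r ^ 2 ∣ r := (hd2.dvd_iff dvd_rfl).1 h
    have h3 := Nat.le_of_dvd hr.pos h2
    nlinarith [hr.two_le]
  have hd0 : 0 < d := Nat.pos_of_ne_zero (by
    rintro rfl
    exact hqd (dvd_zero _))
  -- `x = 1 + q ^ 2 d`
  have hlt : d < (1 + q ^ 2 * d) ^ 2 := by
    have h1 : d ≤ q ^ 2 * d := Nat.le_mul_of_pos_left d (pow_pos hq.pos 2)
    nlinarith
  refine ⟨d, (1 + q ^ 2 * d) ^ 2 - d, 1 + q ^ 2 * d, q, r, hq, hr, by omega, by omega, hd0,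
    by omega, by omega, ?_, ?_, hqd, hrd, hrd2⟩
  all_goals
    obtain ⟨N, hN⟩ : ∃ N, (1 + q ^ 2 * d) ^ 2 = d + N := ⟨_, (Nat.add_sub_of_le hlt.le).symm⟩
    rw [hN, Nat.add_sub_cancel_left]
  · have h1 : 1 + q + N ≡ 1 [MOD q ^ 2] := by
      have h2 : d + N ≡ 1 [MOD q ^ 2] := by
        rw [← hN]
        have h3 : 1 + q ^ 2 * d ≡ 1 [MOD q ^ 2] := by
          have : 1 + q ^ 2 * d ≡ 1 + 0 [MOD q ^ 2] :=
            Nat.ModEq.add_left 1 ((Nat.modEq_zero_iff_dvd).2 (dvd_mul_right _ _))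
          simpa using this
        simpa using h3.pow 2
      exact (Nat.ModEq.add_right N hd1.symm).trans h2
    have h2 : q + N ≡ 0 [MOD q ^ 2] := by
      have h3 : 1 + (q + N) ≡ 1 + 0 [MOD q ^ 2] := by
        rw [← add_assoc]
        simpa using h1
      exact Nat.ModEq.add_left_cancel' 1 h3
    have h3 : q ∣ q + N := (dvd_pow_self q two_ne_zero).trans ((Nat.modEq_zero_iff_dvd).1 h2)
    exact (Nat.dvd_add_right dvd_rfl).1 h3
  · intro h4
    have h1 : 1 + q + N ≡ 1 [MOD q ^ 2] := by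
      have h2 : d + N ≡ 1 [MOD q ^ 2] := by
        rw [← hN]
        have h3 : 1 + q ^ 2 * d ≡ 1 [MOD q ^ 2] := by
          have : 1 + q ^ 2 * d ≡ 1 + 0 [MOD q ^ 2] :=
            Nat.ModEq.add_left 1 ((Nat.modEq_zero_iff_dvd).2 (dvd_mul_right _ _))
          simpa using this
        simpa using h3.pow 2
      exact (Nat.ModEq.add_right N hd1.symm).trans h2
    have h2 : q + N ≡ 0 [MOD q ^ 2] := by
      have h3 : 1 + (q + N) ≡ 1 + 0 [MOD q ^ 2] := by
        rw [← add_assoc]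
        simpa using h1
      exact Nat.ModEq.add_left_cancel' 1 h3
    have h5 : q ^ 2 ∣ q := (Nat.dvd_add_left h4).1 ((Nat.modEq_zero_iff_dvd).1 h2)
    have h6 := Nat.le_of_dvd hq.pos h5
    nlinarith [hq.two_le]

/-- **Independent pairs.** -/
theorem exists_pairs (m : ℕ) : ∃ d N x : Fin m → ℕ, (∀ i, 0 < d i) ∧ (∀ i, 0 < N i) ∧
    (∀ i, x i ^ 2 = d i + N i) ∧ ∀ S T : Finset (Fin m), (S.Nonempty ∨ T.Nonempty) →
      ¬ IsSquare ((∏ i ∈ S, d i) * ∏ i ∈ T, N i) := by
  induction m with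
  | zero =>
    refine ⟨fun i => i.elim0, fun i => i.elim0, fun i => i.elim0, fun i => i.elim0,
      fun i => i.elim0, fun i => i.elim0, ?_⟩
    rintro S T (⟨i, _⟩ | ⟨i, _⟩) <;> exact i.elim0
  | succ m ih =>
    obtain ⟨d, N, x, hd, hN, hx, hns⟩ := ih
    obtain ⟨d', N', x', q, r, hq, hr, hPq, hPr, hd', hN', hx', h1, h2, h3, h4, h5⟩ :=
      exists_pair ((∏ i, d i) * ∏ i, N i)
        (Nat.mul_pos (Finset.prod_pos fun i _ => hd i) (Finset.prod_pos fun i _ => hN i))
    have hP0 : 0 < (∏ i, d i) * ∏ i, N i :=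
      Nat.mul_pos (Finset.prod_pos fun i _ => hd i) (Finset.prod_pos fun i _ => hN i)
    refine ⟨Fin.snoc d d', Fin.snoc N N', Fin.snoc x x', ?_, ?_, ?_, ?_⟩
    · intro i
      refine Fin.lastCases ?_ (fun i => ?_) i
      · rw [Fin.snoc_last]; exact hd'
      · rw [Fin.snoc_castSucc]; exact hd i
    · intro i
      refine Fin.lastCases ?_ (fun i => ?_) i
      · rw [Fin.snoc_last]; exact hN'
      · rw [Fin.snoc_castSucc]; exact hN i
    · intro i
      refine Fin.lastCases ?_ (fun i => ?_) i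
      · rw [Fin.snoc_last, Fin.snoc_last, Fin.snoc_last]; exact hx'
      · rw [Fin.snoc_castSucc, Fin.snoc_castSucc, Fin.snoc_castSucc]; exact hx i
    · intro S T hST
      -- split products
      have key : ∀ (f : Fin m → ℕ) (a : ℕ) (S : Finset (Fin (m + 1))),
          ∏ i ∈ S, (Fin.snoc f a : Fin (m + 1) → ℕ) i =
            (∏ i ∈ Finset.univ.filter (fun i : Fin m => i.castSucc ∈ S), f i) *
              (if Fin.last m ∈ S then a else 1) := by
        intro f a S
        have h6 : ∏ i ∈ S, (Fin.snoc f a : Fin (m + 1) → ℕ) i =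
            ∏ i, if i ∈ S then (Fin.snoc f a : Fin (m + 1) → ℕ) i else 1 := by
          rw [Finset.prod_ite_mem, Finset.univ_inter]
        rw [h6, Fin.prod_univ_castSucc, Finset.prod_filter]
        simp only [Fin.snoc_castSucc, Fin.snoc_last]
      have hdiv : ∀ S' T' : Finset (Fin m), (∏ i ∈ S', d i) * ∏ i ∈ T', N i ∣
          (∏ i, d i) * ∏ i, N i := fun S' T' =>
        mul_dvd_mul (Finset.prod_dvd_prod_of_subset _ _ _ (Finset.subset_univ _))
          (Finset.prod_dvd_prod_of_subset _ _ _ (Finset.subset_univ _))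
      have hndv : ∀ {p : ℕ}, (∏ i, d i) * ∏ i, N i < p → ∀ S' T' : Finset (Fin m),
          ¬ p ∣ (∏ i ∈ S', d i) * ∏ i ∈ T', N i := fun hp S' T' hdv =>
        absurd (Nat.le_of_dvd hP0 (hdv.trans (hdiv S' T'))) (not_le.2 hp)
      rw [key, key]
      set S' := Finset.univ.filter (fun i : Fin m => i.castSucc ∈ S) with hS'
      set T' := Finset.univ.filter (fun i : Fin m => i.castSucc ∈ T) with hT'
      by_cases hT : Fin.last m ∈ T
      · rw [if_pos hT]
        have e1 : (∏ i ∈ S', d i) * (if Fin.last m ∈ S then d' else 1) *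
            ((∏ i ∈ T', N i) * N') = ((∏ i ∈ S', d i) * (∏ i ∈ T', N i) *
              (if Fin.last m ∈ S then d' else 1)) * N' := by ring
        rw [e1]
        refine exact_mul hq ?_ h1 h2
        intro hdv
        rcases (Nat.Prime.dvd_mul hq).1 hdv with h | h
        · exact hndv hPq S' T' h
        · split_ifs at h
          · exact h3 h
          · exact hq.one_lt.ne' (Nat.dvd_one.1 h)
      · rw [if_neg hT]
        by_cases hS : Fin.last m ∈ S
        · rw [if_pos hS]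
          have e1 : (∏ i ∈ S', d i) * d' * ((∏ i ∈ T', N i) * 1) =
              ((∏ i ∈ S', d i) * (∏ i ∈ T', N i)) * d' := by ring
          rw [e1]
          exact exact_mul hr (hndv hPr S' T') h4 h5
        · rw [if_neg hS, mul_one, mul_one]
          refine hns S' T' ?_
          rcases hST with ⟨i, hi⟩ | ⟨i, hi⟩
          · left
            revert hi
            refine Fin.lastCases (fun hi => absurd hi hS) (fun i hi => ?_) i
            exact ⟨i, Finset.mem_filter.2 ⟨Finset.mem_univ _, hi⟩⟩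
          · right
            revert hi
            refine Fin.lastCases (fun hi => absurd hi hT) (fun i hi => ?_) i
            exact ⟨i, Finset.mem_filter.2 ⟨Finset.mem_univ _, hi⟩⟩

end Pool.Agent.N90.FD
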