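import Pool.Agent.N90.FD.Heis

/-!
# The homomorphism of the absolute Galois group onto the Heisenberg group times a cyclic group
-/

set_option autoImplicit false
set_option linter.unusedSectionVars false

namespace Pool.Agent.N90.FD

open NumberField Finset Pool.Agent.N90.HE

section cyclic

/-- A surjective homomorphism to the cyclic group of order `3 ^ k`. -/
theorem exists_cyc (k : ℕ) : ∃ (ζ : QQ) (χ : (QQ ≃ₐ[ℚ] QQ) →* Multiplicative (ZMod (3 ^ k))),
    Function.Surjective χ ∧ ∀ σ : QQ ≃ₐ[ℚ] QQ, σ ζ = ζ → χ σ = 1 := by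
  have hN : NeZero (3 ^ (k + 1)) := ⟨by positivity⟩
  obtain ⟨ζ, hζ⟩ := HasEnoughRootsOfUnity.exists_primitiveRoot QQ (3 ^ (k + 1))
  have hcyc : IsCyclic (ZMod (3 ^ (k + 1)))ˣ :=
    ZMod.isCyclic_units_of_prime_pow 3 Nat.prime_three (by norm_num) (k + 1)
  have hcard : Nat.card (ZMod (3 ^ (k + 1)))ˣ = 3 ^ k * 2 := by
    rw [Nat.card_eq_fintype_card, ZMod.card_units_eq_totient,
      Nat.totient_prime_pow Nat.prime_three (Nat.succ_pos k)]
    simp
  let e := zmodCyclicMulEquiv hcyc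
  let q : ZMod (Nat.card (ZMod (3 ^ (k + 1)))ˣ) →+* ZMod (3 ^ k) :=
    ZMod.castHom (by rw [hcard]; exact dvd_mul_right _ _) _
  have hq : Function.Surjective q := ZMod.castHom_surjective _
  let lam : (ZMod (3 ^ (k + 1)))ˣ →* Multiplicative (ZMod (3 ^ k)) :=
    (AddMonoidHom.toMultiplicative q.toAddMonoidHom).comp e.symm.toMonoidHom
  have hlam : Function.Surjective lam := by
    intro y
    obtain ⟨z, hz⟩ := hq (Multiplicative.toAdd y)
    refine ⟨e (Multiplicative.ofAdd z), ?_⟩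
    change Multiplicative.ofAdd (q (Multiplicative.toAdd (e.symm (e (Multiplicative.ofAdd z))))) = y
    rw [MulEquiv.symm_apply_apply, toAdd_ofAdd, hz, ofAdd_toAdd]
  refine ⟨ζ, lam.comp (hζ.autToPow ℚ), ?_, ?_⟩
  · intro y
    obtain ⟨u, hu⟩ := hlam y
    have hcop : (u : ZMod (3 ^ (k + 1))).val.Coprime (3 ^ (k + 1)) := ZMod.val_coe_unit_coprime u
    have hmp : minpoly ℚ ζ = minpoly ℚ (ζ ^ (u : ZMod (3 ^ (k + 1))).val) := by
      have h1 := Polynomial.cyclotomic_eq_minpoly_rat hζ (by positivity)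
      have h2 := Polynomial.cyclotomic_eq_minpoly_rat (hζ.pow_of_coprime _ hcop) (by positivity)
      have h3 := h1.symm.trans h2
      convert h3
    obtain ⟨σ, hσ⟩ := (Normal.minpoly_eq_iff_mem_orbit QQ).mp hmp
    have hσ' : σ (ζ ^ (u : ZMod (3 ^ (k + 1))).val) = ζ := hσ
    refine ⟨σ.symm, ?_⟩
    rw [← hu, MonoidHom.comp_apply]
    congr 1
    have h2 := hζ.autToPow_spec ℚ σ.symm
    have h3 : σ.symm ζ = ζ ^ (u : ZMod (3 ^ (k + 1))).val := by
      conv_lhs => rw [← hσ']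
      rw [AlgEquiv.symm_apply_apply]
    rw [h3] at h2
    have h4 := hζ.pow_inj (ZMod.val_lt _) (ZMod.val_lt _) h2
    exact Units.ext (ZMod.val_injective _ h4)
  · intro σ hσ
    have h2 := hζ.autToPow_spec ℚ σ
    rw [hσ] at h2
    have h3 : (1 : ℕ) < 3 ^ (k + 1) := Nat.one_lt_pow (Nat.succ_ne_zero k) (by norm_num)
    have h4 : ζ ^ ((hζ.autToPow ℚ σ : (ZMod (3 ^ (k + 1)))ˣ) : ZMod (3 ^ (k + 1))).val =
        ζ ^ 1 := by rw [h2, pow_one]
    have h5 := hζ.pow_inj (ZMod.val_lt _) h3 h4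
    have h6 : hζ.autToPow ℚ σ = 1 := by
      apply Units.ext
      apply ZMod.val_injective
      rw [h5, Units.val_one]
      have : Fact (1 < 3 ^ (k + 1)) := ⟨h3⟩
      rw [ZMod.val_one]
    rw [MonoidHom.comp_apply, h6, map_one]

end cyclic

namespace Dat

variable {m : ℕ} (D : Dat m)

/-- All sign patterns occur. -/
theorem exists_signs (a b : VV m) : ∃ σ : QQ ≃ₐ[ℚ] QQ, D.pa σ = a ∧ D.pb σ = b := by
  classical
  let W : AddSubgroup (VV m × VV m) :=
    { carrier := Set.range fun σ : QQ ≃ₐ[ℚ] QQ => (D.pa σ, D.pb σ)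
      zero_mem' := ⟨1, by
        have h1 : D.pa 1 + 0 = D.pa 1 + D.pa 1 := by rw [add_zero, ← D.pa_mul, mul_one]
        have h2 : D.pb 1 + 0 = D.pb 1 + D.pb 1 := by rw [add_zero, ← D.pb_mul, mul_one]
        change (D.pa 1, D.pb 1) = 0
        rw [← add_left_cancel h1, ← add_left_cancel h2]
        rfl⟩
      add_mem' := by
        rintro _ _ ⟨σ, rfl⟩ ⟨τ, rfl⟩
        exact ⟨σ * τ, Prod.ext (D.pa_mul σ τ) (D.pb_mul σ τ)⟩
      neg_mem' := by
        rintro _ ⟨σ, rfl⟩
        refine ⟨σ, ?_⟩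
        have h : ∀ v : VV m, -v = v := fun v => neg_eq_of_add_eq_zero_left (add_self' v)
        exact Prod.ext (h _).symm (h _).symm }
  let W' : Submodule (ZMod 2) (VV m × VV m) := AddSubgroup.toZModSubmodule 2 W
  have htop : W' = ⊤ := by
    by_contra hne
    obtain ⟨f, hf0, hf⟩ := Submodule.exists_le_ker_of_lt_top W' (lt_top_iff_ne_top.2 hne)
    -- coordinates of the functional
    let S : Finset (Fin m) := Finset.univ.filter fun i => f (Pi.single i 1, 0) ≠ 0
    let T : Finset (Fin m) := Finset.univ.filter fun i => f (0, Pi.single i 1) ≠ 0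
    have h01 : ∀ x : ZMod 2, x ≠ 0 → x = 1 := by decide
    have hfab : ∀ a b : VV m, f (a, b) = ∑ i ∈ S, a i + ∑ i ∈ T, b i := by
      intro a b
      have h1 : (a, b) = ∑ i, a i • ((Pi.single i 1, 0) : VV m × VV m) +
          ∑ i, b i • ((0, Pi.single i 1) : VV m × VV m) := by
        ext j
        · simp [Finset.sum_apply, Pi.single_apply, Prod.fst_sum]
        · simp [Finset.sum_apply, Pi.single_apply, Prod.snd_sum]
      rw [h1, map_add, map_sum, map_sum, Finset.sum_filter, Finset.sum_filter]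
      congr 1
      · refine Finset.sum_congr rfl fun i _ => ?_
        rw [map_smul, smul_eq_mul]
        by_cases h2 : f (Pi.single i 1, 0) = 0
        · rw [h2, mul_zero, if_neg (not_not.2 rfl)]
        · rw [if_pos h2, h01 _ h2, mul_one]
      · refine Finset.sum_congr rfl fun i _ => ?_
        rw [map_smul, smul_eq_mul]
        by_cases h2 : f (0, Pi.single i 1) = 0
        · rw [h2, mul_zero, if_neg (not_not.2 rfl)]
        · rw [if_pos h2, h01 _ h2, mul_one]
    have hST : S.Nonempty ∨ T.Nonempty := by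
      by_contra hcon
      push Not at hcon
      apply hf0
      refine LinearMap.ext fun x => ?_
      obtain ⟨a, b⟩ := x
      rw [hfab, hcon.1, hcon.2, Finset.sum_empty, Finset.sum_empty, add_zero]
      rfl
    apply D.ind S T hST
    -- a rational square root
    let y : QQ := (∏ i ∈ S, D.r i) * ∏ i ∈ T, D.t i
    have hy : ∀ σ : QQ ≃ₐ[ℚ] QQ, σ y = y := by
      intro σ
      have h1 : f (D.pa σ, D.pb σ) = 0 := hf (show (D.pa σ, D.pb σ) ∈ W' from ⟨σ, rfl⟩)
      rw [hfab] at h1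
      have h2 : σ y = (eps (∑ i ∈ S, D.pa σ i + ∑ i ∈ T, D.pb σ i)) * y := by
        rw [eps_add, eps_sum, eps_sum]
        simp only [y]
        rw [map_mul, map_prod, map_prod, Finset.prod_congr rfl (fun i _ => D.pa_spec σ i),
          Finset.prod_congr rfl (fun i _ => D.pb_spec σ i), Finset.prod_mul_distrib,
          Finset.prod_mul_distrib]
        ring
      rw [h2, h1, eps_zero, one_mul]
    obtain ⟨q, hq⟩ := IntermediateField.mem_bot.1 ((InfiniteGalois.mem_bot_iff_fixed y).2 hy)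
    have h1 : y ^ 2 = (((∏ i ∈ S, D.d i) * ∏ i ∈ T, D.N i : ℕ) : QQ) := by
      simp only [y]
      rw [mul_pow, ← Finset.prod_pow, ← Finset.prod_pow, Finset.prod_congr rfl (fun i _ => D.hr i),
        Finset.prod_congr rfl (fun i _ => D.ht i)]
      push_cast
      rfl
    have h2 : q ^ 2 = (((∏ i ∈ S, D.d i) * ∏ i ∈ T, D.N i : ℕ) : ℚ) := by
      apply (algebraMap ℚ QQ).injective
      rw [map_pow, hq, h1, map_natCast]
    rw [← Rat.isSquare_natCast_iff, ← h2]
    exact ⟨q, sq q⟩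
  have h1 : (a, b) ∈ W' := by rw [htop]; trivial
  obtain ⟨σ, hσ⟩ := h1
  exact ⟨σ, congrArg Prod.fst hσ, congrArg Prod.snd hσ⟩

variable {k : ℕ} (χ : (QQ ≃ₐ[ℚ] QQ) →* Multiplicative (ZMod (3 ^ k)))

/-- the homomorphism -/
noncomputable def PP : (QQ ≃ₐ[ℚ] QQ) →* HG m (3 ^ k) :=
  MonoidHom.mk' (fun σ => ⟨D.pa σ, D.pb σ, D.ps σ, Multiplicative.toAdd (χ σ)⟩) fun σ τ => by
    ext1
    · exact D.pa_mul σ τ
    · exact D.pb_mul σ τ
    · exact D.ps_mul σ τ
    · change Multiplicative.toAdd (χ (σ * τ)) = _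
      rw [map_mul, toAdd_mul]
      rfl

/-- complex conjugation -/
theorem PP_conj (cc : QQ ≃ₐ[ℚ] QQ) (hcc : ∀ x, j0 (cc x) = starRingEnd ℂ (j0 x)) :
    D.PP χ cc = HG.c m (3 ^ k) := by
  -- real elements
  have hreal : ∀ (x : QQ) (n : ℕ), x ^ 2 = n → cc x = x := by
    intro x n hx
    apply j0.injective
    change j0 (cc x) = j0 x
    rw [hcc]
    have h1 : (j0 x) ^ 2 = n := by rw [← map_pow, hx, map_natCast]
    have h2 : (j0 x).im = 0 := by
      have h3 := congrArg Complex.im h1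
      have h4 := congrArg Complex.re h1
      rw [sq, Complex.mul_im, Complex.natCast_im] at h3
      rw [sq, Complex.mul_re, Complex.natCast_re] at h4
      have h5 : (0 : ℝ) ≤ n := Nat.cast_nonneg n
      by_contra hne
      have h6 : (j0 x).re = 0 := by
        have h7 : (j0 x).re * (j0 x).im = 0 := by linarith
        exact (mul_eq_zero.1 h7).resolve_right hne
      rw [h6] at h4
      have h8 : 0 < (j0 x).im * (j0 x).im := mul_self_pos.2 hne
      linarith
    exact Complex.conj_eq_iff_im.2 h2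
  have hr : ∀ i, cc (D.r i) = D.r i := fun i => hreal _ _ (D.hr i)
  have ht : ∀ i, cc (D.t i) = D.t i := fun i => hreal _ _ (D.ht i)
  have hsgn : ∀ x : QQ, sgn x x = 0 := fun x => if_pos rfl
  have hpa : D.pa cc = 0 := by
    funext i
    change sgn (D.r i) (cc (D.r i)) = 0
    rw [hr, hsgn]
  have hpb : D.pb cc = 0 := by
    funext i
    change sgn (D.t i) (cc (D.t i)) = 0
    rw [ht, hsgn]
  -- positivity
  have hpos : ∀ i, ∃ y : ℝ, 0 < y ∧ j0 ((D.x i : QQ) + D.r i) = y := by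
    intro i
    have h1 : (j0 (D.r i)).im = 0 := by
      rw [← Complex.conj_eq_iff_im, ← hcc, hr]
    have h2 : j0 (D.r i) = ((j0 (D.r i)).re : ℂ) := Complex.ext rfl (by rw [h1, Complex.ofReal_im])
    have h3 : ((j0 (D.r i)).re) ^ 2 = D.d i := by
      have h4 : (j0 (D.r i)) ^ 2 = D.d i := by rw [← map_pow, D.hr, map_natCast]
      rw [h2] at h4
      exact_mod_cast h4
    refine ⟨D.x i + (j0 (D.r i)).re, ?_, ?_⟩
    · have h5 : ((D.x i : ℕ) : ℝ) ^ 2 = D.d i + D.N i := by exact_mod_cast D.hx i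
      have h6 : (0 : ℝ) < D.N i := by exact_mod_cast D.hN i
      have h7 : (0 : ℝ) ≤ D.x i := Nat.cast_nonneg _
      nlinarith [abs_lt_of_sq_lt_sq (a := (j0 (D.r i)).re) (b := (D.x i : ℝ)) (by linarith) h7,
        (abs_lt.1 (abs_lt_of_sq_lt_sq (a := (j0 (D.r i)).re) (b := (D.x i : ℝ)) (by linarith) h7)).1]
    · rw [map_add, map_natCast]
      conv_lhs => rw [h2]
      push_cast
      rfl
  choose y hy0 hy using hpos
  have hθ : cc D.θ ≠ D.θ := by
    intro h
    have h1 : (j0 D.θ).im = 0 := by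
      rw [← Complex.conj_eq_iff_im, ← hcc, h]
    have h2 : j0 D.θ = ((j0 D.θ).re : ℂ) := Complex.ext rfl (by rw [h1, Complex.ofReal_im])
    have h3 : (j0 D.θ) ^ 2 = -((∏ i, y i : ℝ) : ℂ) := by
      rw [← map_pow, D.hθ, map_neg, map_prod, Finset.prod_congr rfl (fun i _ => hy i)]
      push_cast
      rfl
    rw [h2] at h3
    have h4 : ((j0 D.θ).re) ^ 2 = -(∏ i, y i) := by exact_mod_cast h3
    have h5 : 0 < ∏ i, y i := Finset.prod_pos fun i _ => hy0 i
    nlinarith [sq_nonneg (j0 D.θ).re]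
  have hps : D.ps cc = 1 := by
    unfold ps
    have h1 : ∏ i, D.fq i (D.pa cc i) = 1 := by
      refine Finset.prod_eq_one fun i _ => ?_
      rw [hpa]
      exact if_pos rfl
    rw [h1, mul_one]
    exact if_neg hθ
  -- the cyclic part
  have hχ : Multiplicative.toAdd (χ cc) = 0 := by
    have h1 : cc * cc = 1 := by
      ext x
      apply j0.injective
      change j0 (cc (cc x)) = j0 x
      rw [hcc, hcc, Complex.conj_conj]
    have h2 : χ cc * χ cc = 1 := by rw [← map_mul, h1, map_one]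
    have h3 : Multiplicative.toAdd (χ cc) + Multiplicative.toAdd (χ cc) = 0 := by
      rw [← toAdd_mul, h2]
      rfl
    have h4 : (2 : ZMod (3 ^ k)) * Multiplicative.toAdd (χ cc) = 0 := by rw [two_mul]; exact h3
    have h5 : IsUnit (2 : ZMod (3 ^ k)) := by
      have h6 : (2 : ℕ).Coprime (3 ^ k) := Nat.Coprime.pow_right k (by norm_num)
      have h7 := (ZMod.unitOfCoprime 2 h6).isUnit
      rwa [ZMod.coe_unitOfCoprime, Nat.cast_ofNat] at h7
    exact (h5.mul_right_eq_zero).1 h4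
  ext1
  · exact hpa
  · exact hpb
  · exact hps
  · exact hχ

/-- **Surjectivity.** -/
theorem PP_surj (hχ : Function.Surjective χ) : Function.Surjective (D.PP χ) := by
  rintro ⟨a, b, s, i⟩
  obtain ⟨cc, hcc⟩ := exists_conj
  have hc := D.PP_conj χ cc hcc
  obtain ⟨σ1, h1, h2⟩ := D.exists_signs a b
  obtain ⟨σ2, h3⟩ := hχ (Multiplicative.ofAdd i)
  have hcop : (4 : ℕ).Coprime (3 ^ k) := Nat.Coprime.pow_right k (by norm_num)
  obtain ⟨u, hu4, hun⟩ := Nat.chineseRemainder hcop 1 0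
  obtain ⟨v, hv4, hvn⟩ := Nat.chineseRemainder hcop 0 1
  have hu0 : ((u : ℕ) : ZMod (3 ^ k)) = 0 := by
    rw [ZMod.natCast_eq_zero_iff]
    exact (Nat.modEq_zero_iff_dvd).1 hun
  have hv1 : ((v : ℕ) : ZMod (3 ^ k)) = 1 := by
    have := (ZMod.natCast_eq_natCast_iff v 1 (3 ^ k)).2 hvn
    rwa [Nat.cast_one] at this
  have hu2 : ((u : ℕ) : ZMod 2) = 1 := by
    have h4 : u ≡ 1 [MOD 2] := hu4.of_dvd (by norm_num)
    have := (ZMod.natCast_eq_natCast_iff u 1 2).2 h4
    rwa [Nat.cast_one] at this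
  obtain ⟨w, hw⟩ : 4 ∣ v := (Nat.modEq_zero_iff_dvd).1 hv4
  set g1 := D.PP χ σ1 with hg1
  set g2 := D.PP χ σ2 with hg2
  -- the product
  have e1 : (g1 ^ u * g2 ^ v).a = a := by
    rw [HG.mul_a, HG.pow_a, hu2, one_smul, hw, pow_mul, HG.pow_a, (HG.pow_four g2).1, smul_zero,
      add_zero]
    exact h1
  have e2 : (g1 ^ u * g2 ^ v).b = b := by
    rw [HG.mul_b, HG.pow_b, hu2, one_smul, hw, pow_mul, HG.pow_b, (HG.pow_four g2).2.1, smul_zero,
      add_zero]
    exact h2
  have e3 : (g1 ^ u * g2 ^ v).i = i := by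
    rw [HG.mul_i, HG.pow_i, HG.pow_i, hu0, hv1, zero_mul, zero_add, one_mul]
    change Multiplicative.toAdd (χ σ2) = i
    rw [h3]
    rfl
  by_cases hs : (g1 ^ u * g2 ^ v).s = s
  · refine ⟨σ1 ^ u * σ2 ^ v, ?_⟩
    rw [map_mul, map_pow, map_pow]
    ext1
    · exact e1
    · exact e2
    · exact hs
    · exact e3
  · refine ⟨σ1 ^ u * σ2 ^ v * cc, ?_⟩
    rw [map_mul, map_mul, map_pow, map_pow, hc]
    ext1
    · rw [HG.mul_a]
      have : (HG.c m (3 ^ k)).a = 0 := rfl
      rw [this, add_zero]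
      exact e1
    · rw [HG.mul_b]
      have : (HG.c m (3 ^ k)).b = 0 := rfl
      rw [this, add_zero]
      exact e2
    · rw [HG.mul_s]
      have h4 : (HG.c m (3 ^ k)).a = 0 := rfl
      have h5 : (HG.c m (3 ^ k)).s = 1 := rfl
      rw [h4, h5, dotProduct_zero, add_zero]
      have h6 : ∀ x y : ZMod 2, x ≠ y → x + 1 = y := by decide
      exact h6 _ _ hs
    · rw [HG.mul_i]
      have : (HG.c m (3 ^ k)).i = 0 := rfl
      rw [this, add_zero]
      exact e3

end Dat

/-- **A CM field whose Galois group is the product of a Heisenberg group and a cyclic group**, such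
that the complex conjugation is the central involution. -/
theorem exists_heis (m k : ℕ) :
    ∃ (K : Type) (_ : Field K) (_ : NumberField K) (_ : IsCMField K) (_ : IsGalois ℚ K)
      (e : (K ≃ₐ[ℚ] K) ≃* HG m (3 ^ k)), ∀ g : K ≃ₐ[ℚ] K,
        (∀ x, g x = IsCMField.complexConj K x) → e g = HG.c m (3 ^ k) := by
  obtain ⟨D⟩ := exists_dat m
  obtain ⟨ζ, χ, hχ, hζ⟩ := exists_cyc k
  obtain ⟨cc, hcc⟩ := exists_conj
  have hc := D.PP_conj χ cc hcc
  let S : Set QQ := Set.range D.r ∪ Set.range D.t ∪ {D.θ, ζ}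
  have hSfin : S.Finite := ((Set.finite_range _).union (Set.finite_range _)).union
    (Set.toFinite _)
  let M : IntermediateField ℚ QQ := IntermediateField.adjoin ℚ S
  have hfd : FiniteDimensional ℚ M := by
    have := hSfin.to_subtype
    exact IntermediateField.finiteDimensional_adjoin fun x _ => Algebra.IsIntegral.isIntegral x
  have hM : M.fixingSubgroup ≤ (D.PP χ).ker := by
    intro σ hσ
    have h1 : ∀ x ∈ S, σ x = x := fun x hx =>
      (IntermediateField.mem_fixingSubgroup_iff M σ).1 hσ x (IntermediateField.subset_adjoin ℚ S hx)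
    have hsgn : ∀ x : QQ, sgn x x = 0 := fun x => if_pos rfl
    have hpa : D.pa σ = 0 := by
      funext i
      change sgn (D.r i) (σ (D.r i)) = 0
      rw [h1 _ (Or.inl (Or.inl ⟨i, rfl⟩)), hsgn]
    have hpb : D.pb σ = 0 := by
      funext i
      change sgn (D.t i) (σ (D.t i)) = 0
      rw [h1 _ (Or.inl (Or.inr ⟨i, rfl⟩)), hsgn]
    have hps : D.ps σ = 0 := by
      unfold Dat.ps
      have h2 : ∏ i, D.fq i (D.pa σ i) = 1 := by
        refine Finset.prod_eq_one fun i _ => ?_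
        rw [hpa]
        exact if_pos rfl
      rw [h2, mul_one, h1 _ (Or.inr (Or.inl rfl)), hsgn]
    rw [MonoidHom.mem_ker]
    ext1
    · exact hpa
    · exact hpb
    · exact hps
    · change Multiplicative.toAdd (χ σ) = 0
      rw [hζ σ (h1 _ (Or.inr (Or.inr rfl)))]
      rfl
  have hmain := exists_field (D.PP χ) (D.PP_surj χ hχ) M hM cc hcc
    (fun g => by rw [hc]; exact HG.c_central g) (by rw [hc]; exact HG.c_ne_one)
  rw [hc] at hmain
  exact hmain

end Pool.Agent.N90.FD
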